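import Pool.Agent.Helper34.ST.Basic

/-!
# Changing the directed walk inside a pattern of large range
-/

set_option autoImplicit false

namespace Pool.Agent.Helper34.ST

theorem exc_join {ι : Type} {r : ι → ι → Prop} {σ : ℕ → Bool} {a b p q : ℕ} {u v x : ℤ → ι}
    (h1 : a ≤ p) (h2 : p ≤ q) (h3 : q ≤ b) (hu : Dir r u) (hv : Dir r v) (hx : Dir r x)
    (e1 : x (ht σ p) = u (ht σ p)) (e2 : x (ht σ q) = v (ht σ q)) :
    ∃ W : ℕ → ι, Walk r σ a b W ∧ W a = u (ht σ a) ∧ W b = v (ht σ b) := by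
  obtain ⟨W1, hW1, hW1a, hW1b⟩ := cat h1 h2 (walk_dir hu σ a p) (walk_dir hx σ p q) e1.symm
  have h12 : a ≤ q := h1.trans h2
  obtain ⟨W, hW, hWa, hWb⟩ := cat h12 h3 hW1 (walk_dir hv σ q b) (by rw [hW1b q h2]; exact e2)
  refine ⟨W, hW, ?_, ?_⟩
  · rw [hWa a h12, hW1a a h1]
  · rw [hWb b h3]

theorem exc_col {ι : Type} {r : ι → ι → Prop} {C : Set ι} {g : ℕ} {c : ι → ZMod g}
    (hc : ∀ x ∈ C, ∀ y, r x y → y ∈ C ∧ c y = c x + 1) {u : ℤ → ι} (hu : Dir r u) (huC : ∀ i, u i ∈ C)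
    (i : ℤ) (n : ℕ) : c (u (i + n)) = c (u i) + n := by
  induction n with
  | zero => simp
  | succ n ih =>
    have h := (hc _ (huC (i + n)) _ (hu (i + n))).2
    have e : i + ((n + 1 : ℕ) : ℤ) = i + n + 1 := by push_cast; ring
    rw [e, h, ih]
    push_cast
    ring

theorem st_EXC (hG : ST_GLUE) : ST_EXC := by
  intro ι r C g c J hc hP σ a b u v hab hR hu hv huC hvC hcuv
  unfold Rg at hR
  push Not at hR
  obtain ⟨s, t, hs1, hs2, ht1, ht2, hst⟩ := hR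
  rcases lt_or_ge t s with hlt | hge
  · -- upwards
    obtain ⟨n, hn⟩ : ∃ n : ℕ, ht σ s = ht σ t + n := ⟨(ht σ s - ht σ t).toNat, by omega⟩
    have hJ : J ≤ n := by omega
    have hcol : c (v (ht σ t + n)) = c (u (ht σ t)) + n := by
      rw [← hcuv, exc_col hc hu huC]
    obtain ⟨p, hp0, hpn, hp⟩ := hP _ (huC (ht σ t)) _ (hvC (ht σ t + n)) n hJ hcol
    obtain ⟨x, hx, _, hx1, hx2⟩ := hG ι r Set.univ u v (ht σ t) n p hu hv (fun _ => Set.mem_univ _)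
      (fun _ => Set.mem_univ _) hp0 hpn hp (fun _ _ => Set.mem_univ _)
    exact exc_join ht1 hlt.le hs2 hu hv hx (hx1 _ le_rfl) (hx2 _ (by omega))
  · -- downwards
    obtain ⟨n, hn⟩ : ∃ n : ℕ, ht σ s = ht σ t + n := ⟨(ht σ s - ht σ t).toNat, by omega⟩
    have hJ : J ≤ n := by omega
    have hcol : c (u (ht σ t + n)) = c (v (ht σ t)) + n := by
      rw [← hcuv, exc_col hc hu huC]
    obtain ⟨p, hp0, hpn, hp⟩ := hP _ (hvC (ht σ t)) _ (huC (ht σ t + n)) n hJ hcol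
    obtain ⟨x, hx, _, hx1, hx2⟩ := hG ι r Set.univ v u (ht σ t) n p hv hu (fun _ => Set.mem_univ _)
      (fun _ => Set.mem_univ _) hp0 hpn hp (fun _ _ => Set.mem_univ _)
    exact exc_join hs1 hge ht2 hu hv hx (hx2 _ (by omega)) (hx1 _ le_rfl)

end Pool.Agent.Helper34.ST
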