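import Pool.Agent.Helper34.ST.Basic

/-!
# Glueing two bi-infinite directed walks
-/

set_option autoImplicit false

namespace Pool.Agent.Helper34.ST

theorem st_GLUE : ST_GLUE := by
  intro ι r C u v a n p hu hv huC hvC hp0 hpn hp hpC
  set x : ℤ → ι := fun t => if t ≤ a then u t else if t ≤ a + n then p (t - a).toNat else v t with hx
  have hx1 : ∀ i, i ≤ a → x i = u i := by
    intro i hi
    simp only [hx]
    exact if_pos hi
  have hx2 : ∀ i, a ≤ i → i ≤ a + n → x i = p (i - a).toNat := by
    intro i hi hi2
    rcases eq_or_lt_of_le hi with h | h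
    · rw [← h, hx1 a le_rfl, ← hp0, sub_self]
      rfl
    · simp only [hx]
      rw [if_neg (by omega), if_pos hi2]
  have hx3 : ∀ i, a + n ≤ i → x i = v i := by
    intro i hi
    rcases eq_or_lt_of_le hi with h | h
    · rw [← h, hx2 (a + n) (by omega) le_rfl, ← hpn]
      congr 1
      omega
    · simp only [hx]
      rw [if_neg (by omega), if_neg (by omega)]
  refine ⟨x, ?_, ?_, hx1, hx3⟩
  · intro i
    rcases lt_or_ge i a with h1 | h1
    · rw [hx1 i h1.le, hx1 (i + 1) (by omega)]
      exact hu i
    · rcases lt_or_ge i (a + n) with h2 | h2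
      · rw [hx2 i h1 h2.le, hx2 (i + 1) (by omega) (by omega)]
        have e : (i + 1 - a).toNat = (i - a).toNat + 1 := by omega
        rw [e]
        exact hp _ (by omega)
      · rw [hx3 i h2, hx3 (i + 1) (by omega)]
        exact hv i
  · intro i
    rcases lt_or_ge i a with h1 | h1
    · rw [hx1 i h1.le]
      exact huC i
    · rcases lt_or_ge i (a + n) with h2 | h2
      · rw [hx2 i h1 h2.le]
        exact hpC _ (by omega)
      · rw [hx3 i h2]
        exact hvC i

end Pool.Agent.Helper34.ST
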